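import Pool.Agent.Y230.RE.Tree

set_option autoImplicit false
set_option linter.unusedSectionVars false

/-! # Existence of the tree of blow-ups -/

namespace Pool.Agent.Y230.RE

open MvPolynomial

variable {k : Type} [Field k] [CharZero k] {ι : Type}

/-- the order of the family at the origin is `m` -/
def IsOrd (g : ι → A k) (m : ℕ) : Prop :=
  (∀ j, ∀ μ : Fin 2 →₀ ℕ, μ.degree < m → coeff μ (g j) = 0) ∧
    ∃ j, ∃ μ : Fin 2 →₀ ℕ, μ.degree = m ∧ coeff μ (g j) ≠ 0

theorem exists_ord (g : ι → A k) (h : ∃ j, g j ≠ 0) : ∃ m, IsOrd g m := by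
  classical
  have h1 : ∃ m, ∃ j, ∃ μ : Fin 2 →₀ ℕ, μ.degree = m ∧ coeff μ (g j) ≠ 0 := by
    obtain ⟨j, hj⟩ := h
    obtain ⟨μ, hμ⟩ := ne_zero_iff.1 hj
    exact ⟨μ.degree, j, μ, rfl, hμ⟩
  refine ⟨Nat.find h1, fun j μ hμ => ?_, Nat.find_spec h1⟩
  by_contra hc
  exact Nat.find_min h1 hμ ⟨j, μ, rfl, hc⟩

theorem IsOrd.unique {g : ι → A k} {m n : ℕ} (hm : IsOrd g m) (hn : IsOrd g n) : m = n := by
  obtain ⟨h1, j, μ, h2, h3⟩ := hm
  obtain ⟨h4, j', μ', h5, h6⟩ := hn
  rcases lt_trichotomy m n with h | h | h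
  · exact absurd (h4 j μ (by omega)) h3
  · exact h
  · exact absurd (h1 j' μ' (by omega)) h6

theorem ord_le_of_r0 {g : ι → A k} {m n : ℕ} (hm : IsOrd g m) (j : ι) (h : r0 (g j) ≠ 0)
    (hn : (r0 (g j)).natDegree ≤ n) : m ≤ n := by
  by_contra hlt
  have h1 : (r0 (g j)).coeff (r0 (g j)).natDegree ≠ 0 := by
    rw [Polynomial.coeff_natDegree]
    exact Polynomial.leadingCoeff_ne_zero.2 h
  rw [r0_coeff] at h1
  exact h1 (hm.1 j _ (by rw [ex_degree]; omega))

theorem ord_le_of_r1 {g : ι → A k} {m n : ℕ} (hm : IsOrd g m) (j : ι) (h : r1 (g j) ≠ 0)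
    (hn : (r1 (g j)).natDegree ≤ n) : m ≤ n := by
  by_contra hlt
  have h1 : (r1 (g j)).coeff (r1 (g j)).natDegree ≠ 0 := by
    rw [Polynomial.coeff_natDegree]
    exact Polynomial.leadingCoeff_ne_zero.2 h
  rw [r1_coeff] at h1
  exact h1 (hm.1 j _ (by rw [ex_degree]; omega))

theorem r0_form {g : ι → A k} {m : ℕ} (hm : IsOrd g m) (j : ι)
    (hn : (r0 (g j)).natDegree ≤ m) : ∃ lam : k, r0 (g j) = Polynomial.C lam * Polynomial.X ^ m := by
  refine ⟨(r0 (g j)).coeff m, ?_⟩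
  ext i
  rw [Polynomial.coeff_C_mul, Polynomial.coeff_X_pow]
  rcases lt_trichotomy i m with h | h | h
  · rw [if_neg h.ne, mul_zero, r0_coeff]
    exact hm.1 j _ (by rw [ex_degree]; omega)
  · rw [if_pos h, h, mul_one]
  · rw [if_neg h.ne', mul_zero]
    exact Polynomial.coeff_eq_zero_of_natDegree_lt (by omega)

theorem r1_form {g : ι → A k} {m : ℕ} (hm : IsOrd g m) (j : ι)
    (hn : (r1 (g j)).natDegree ≤ m) : ∃ lam : k, r1 (g j) = Polynomial.C lam * Polynomial.X ^ m := by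
  refine ⟨(r1 (g j)).coeff m, ?_⟩
  ext i
  rw [Polynomial.coeff_C_mul, Polynomial.coeff_X_pow]
  rcases lt_trichotomy i m with h | h | h
  · rw [if_neg h.ne, mul_zero, r1_coeff]
    exact hm.1 j _ (by rw [ex_degree]; omega)
  · rw [if_pos h, h, mul_one]
  · rw [if_neg h.ne', mul_zero]
    exact Polynomial.coeff_eq_zero_of_natDegree_lt (by omega)

/-- the transforms at a blow-up -/
structure Blow (g : ι → A k) (m : ℕ) (gc : k → ι → A k) (gI : ι → A k) : Prop where
  hgc : ∀ c j, aeval (ch c) (g j) = X 0 ^ m * gc c j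
  hgI : ∀ j, aeval chI (g j) = X 1 ^ m * gI j

theorem exists_blow (g : ι → A k) (m : ℕ)
    (h : ∀ j, ∀ μ : Fin 2 →₀ ℕ, μ.degree < m → coeff μ (g j) = 0) :
    ∃ gc gI, Blow g m gc gI := by
  choose gc hgc using fun (c : k) (j : ι) => ch_dvd (g j) m (h j) c
  choose gI hgI using fun (j : ι) => chI_dvd (g j) m (h j)
  exact ⟨gc, gI, hgc, hgI⟩

theorem Blow.r0c {g : ι → A k} {m : ℕ} {gc : k → ι → A k} {gI : ι → A k} (hB : Blow g m gc gI)
    (c : k) (j : ι) :
    r0 (gc c j) = ((om (g j)).coeff m).comp (Polynomial.X + Polynomial.C c) := by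
  rw [ch_shift (hB.hgc 0 j) (hB.hgc c j), r0_shift, r0_lead (hB.hgc 0 j)]

theorem om_deg (g : A k) (m : ℕ) : ((om g).coeff m).natDegree ≤ m := by
  rw [Polynomial.natDegree_le_iff_coeff_eq_zero]
  intro n hn
  rw [om_coeff, if_neg (by omega)]

theorem omI_deg (g : A k) (m : ℕ) : ((omI g).coeff m).natDegree ≤ m := by
  rw [Polynomial.natDegree_le_iff_coeff_eq_zero]
  intro n hn
  rw [omI_coeff, if_neg (by omega)]

theorem comp_ne (P : Polynomial k) (c : k) (hP : P ≠ 0) :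
    P.comp (Polynomial.X + Polynomial.C c) ≠ 0 := by
  intro h
  apply hP
  have h1 : (P.comp (Polynomial.X + Polynomial.C c)).comp (Polynomial.X - Polynomial.C c) = P := by
    rw [Polynomial.comp_assoc]
    simp
  rw [← h1, h, Polynomial.zero_comp]

theorem comp_deg (P : Polynomial k) (c : k) (m : ℕ) (hP : P.natDegree ≤ m) :
    (P.comp (Polynomial.X + Polynomial.C c)).natDegree ≤ m := by
  rw [Polynomial.natDegree_comp, Polynomial.natDegree_X_add_C, mul_one]
  exact hP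

theorem lead_ne {g : ι → A k} {m : ℕ} (hm : IsOrd g m) :
    (∃ j, (om (g j)).coeff m ≠ 0) ∧ ∃ j, (omI (g j)).coeff m ≠ 0 := by
  obtain ⟨-, j, μ, h1, h2⟩ := hm
  have h3 : μ 0 + μ 1 = m := by
    rw [← h1, ← ex_degree, ex_eta]
  refine ⟨⟨j, fun h => ?_⟩, ⟨j, fun h => ?_⟩⟩
  · have h4 := congrArg (fun P => P.coeff (μ 1)) h
    simp only [Polynomial.coeff_zero] at h4
    rw [om_coeff, if_pos (by omega)] at h4
    apply h2
    have h5 : m - μ 1 = μ 0 := by omega
    rw [← ex_eta μ, ← h5]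
    exact h4
  · have h4 := congrArg (fun P => P.coeff (μ 0)) h
    simp only [Polynomial.coeff_zero] at h4
    rw [omI_coeff, if_pos (by omega)] at h4
    apply h2
    have h5 : m - μ 0 = μ 1 := by omega
    rw [← ex_eta μ, ← h5]
    exact h4

/-- a node without a tree -/
structure Bad (g : ι → A k) (d0 d1 : Bool) : Prop where
  ne : ∃ j, g j ≠ 0
  h0 : d0 = true → ∃ j, r0 (g j) ≠ 0
  h1 : d1 = true → ∃ j, r1 (g j) ≠ 0
  nt : ¬ KT g d0 d1

theorem Bad.pos {g : ι → A k} {d0 d1 : Bool} (hb : Bad g d0 d1) {m : ℕ} (hm : IsOrd g m) :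
    1 ≤ m := by
  by_contra h
  have h0 : m = 0 := by omega
  subst h0
  obtain ⟨-, j, μ, h1, h2⟩ := hm
  apply hb.nt
  refine KT.unit g d0 d1 j ?_
  rw [cc_eq]
  have h3 : μ = ex 0 0 := by
    rw [Finsupp.degree_eq_zero_iff] at h1
    rw [h1]; ext i; simp [ex]
  rwa [← h3]

/-- a bad node has a bad child -/
theorem Bad.child {g : ι → A k} {d0 d1 : Bool} (hb : Bad g d0 d1) {m : ℕ} (hm : IsOrd g m)
    {gc : k → ι → A k} {gI : ι → A k} (hB : Blow g m gc gI) :
    (Bad (gc 0) true d1) ∨ (∃ c, c ≠ 0 ∧ Bad (gc c) true false) ∨ Bad gI d0 true := by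
  obtain ⟨⟨j, hj⟩, ⟨j', hj'⟩⟩ := lead_ne hm
  have hr0 : ∀ c, r0 (gc c j) ≠ 0 := fun c => by
    rw [hB.r0c]
    exact comp_ne _ _ hj
  have hr1 : r1 (gI j') ≠ 0 := by
    rw [r1_lead (hB.hgI j')]
    exact hj'
  have hne0 : ∀ c, gc c j ≠ 0 := fun c h => hr0 c (by rw [h, map_zero])
  have hneI : gI j' ≠ 0 := fun h => hr1 (by rw [h, map_zero])
  by_contra hcon
  push Not at hcon
  obtain ⟨c1, c2, c3⟩ := hcon
  apply hb.nt
  refine KT.blowup g d0 d1 m (hb.pos hm) gc gI hB.hgc hB.hgI ⟨j, hr0 0⟩ ?_ ?_ ?_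
  · by_contra h
    refine c1 ⟨⟨j, hne0 0⟩, fun _ => ⟨j, hr0 0⟩, fun hd => ?_, h⟩
    obtain ⟨i, hi⟩ := hb.h1 hd
    refine ⟨i, fun h2 => hi ?_⟩
    rw [r1_ch (hB.hgc 0 i), h2, mul_zero]
  · intro c hc
    by_contra h
    exact c2 c hc ⟨⟨j, hne0 c⟩, fun _ => ⟨j, hr0 c⟩, fun hd => by simp at hd, h⟩
  · by_contra h
    refine c3 ⟨⟨j', hneI⟩, fun hd => ?_, fun _ => ⟨j', hr1⟩, h⟩
    obtain ⟨i, hi⟩ := hb.h0 hd
    refine ⟨i, fun h2 => hi ?_⟩
    rw [r0_chI (hB.hgI i), h2, mul_zero]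

/-- dependent choice -/
theorem dep_seq {α β : Type} (Q : α → Prop) (R : α → β → α → Prop)
    (h : ∀ a, Q a → ∃ b a', R a b a' ∧ Q a') (a0 : α) (h0 : Q a0) :
    ∃ (a : ℕ → α) (b : ℕ → β), a 0 = a0 ∧ ∀ n, R (a n) (b n) (a (n + 1)) := by
  classical
  choose fb fa hR hQ using fun (x : {a // Q a}) => h x.1 x.2
  let seq : ℕ → {a // Q a} := fun n => Nat.rec ⟨a0, h0⟩ (fun _ x => ⟨fa x, hQ x⟩) n
  exact ⟨fun n => (seq n).1, fun n => fb (seq n), rfl, fun n => hR (seq n)⟩

/-- the isomorphism with `k[u][v]` -/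
noncomputable def th : A k →ₐ[k] Polynomial (Polynomial k) :=
  aeval ![Polynomial.C Polynomial.X, Polynomial.X]

/-- the inverse -/
noncomputable def ht : Polynomial (Polynomial k) →+* A k :=
  Polynomial.eval₂RingHom ((Polynomial.aeval (X 0 : A k)).toRingHom) (X 1)

theorem ht_th (g : A k) : ht (th g) = g := by
  have h : (ht (k := k)).comp (th (k := k)).toRingHom = RingHom.id (A k) := by
    refine MvPolynomial.ringHom_ext (fun c => ?_) fun i => ?_
    · simp [th, ht]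
    · fin_cases i <;> simp [th, ht]
  exact congrArg (fun φ : A k →+* A k => φ g) h

theorem th_ht (G : Polynomial (Polynomial k)) : th (ht G) = G := by
  have h : (th (k := k)).toRingHom.comp (ht (k := k)) = RingHom.id _ := by
    apply Polynomial.ringHom_ext'
    · apply Polynomial.ringHom_ext'
      · ext c
        · simp [th, ht]
      · simp [th, ht]
    · simp [th, ht]
  exact congrArg (fun φ : Polynomial (Polynomial k) →+* Polynomial (Polynomial k) => φ G) h

theorem th_inj : Function.Injective (th (k := k)) :=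
  Function.LeftInverse.injective ht_th

theorem th_ch (c : k) (g : A k) : th (aeval (ch c) g) = (th g).comp (sb c) := by
  have h : (th (k := k)).toRingHom.comp (aeval (ch c) : A k →ₐ[k] A k).toRingHom =
      (Polynomial.compRingHom (sb c)).comp (th (k := k)).toRingHom := by
    refine MvPolynomial.ringHom_ext (fun c => ?_) fun i => ?_
    · simp [th]
    · fin_cases i
      · simp [th]
      · simp [th, sb]
  exact congrArg (fun φ : A k →+* Polynomial (Polynomial k) => φ g) h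

theorem th_X0 : th (X 0 : A k) = Polynomial.C Polynomial.X := by simp [th]

theorem th_r1 (g : A k) : (th g).coeff 0 = r1 g := by
  have h : (Polynomial.aeval (0 : Polynomial k)).toRingHom.comp (th (k := k)).toRingHom =
      (r1 (k := k)).toRingHom := by
    refine MvPolynomial.ringHom_ext (fun c => ?_) fun i => ?_
    · simp [th, r1]
    · fin_cases i <;> simp [th, r1]
  have h1 := congrArg (fun φ : A k →+* Polynomial k => φ g) h
  rw [Polynomial.coeff_zero_eq_eval_zero]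
  simpa using h1

/-- the swapped isomorphism -/
noncomputable def th' : A k →ₐ[k] Polynomial (Polynomial k) :=
  aeval ![Polynomial.X, Polynomial.C Polynomial.X]

noncomputable def ht' : Polynomial (Polynomial k) →+* A k :=
  Polynomial.eval₂RingHom ((Polynomial.aeval (X 1 : A k)).toRingHom) (X 0)

theorem ht_th' (g : A k) : ht' (th' g) = g := by
  have h : (ht' (k := k)).comp (th' (k := k)).toRingHom = RingHom.id (A k) := by
    refine MvPolynomial.ringHom_ext (fun c => ?_) fun i => ?_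
    · simp [th', ht']
    · fin_cases i <;> simp [th', ht']
  exact congrArg (fun φ : A k →+* A k => φ g) h

theorem th_chI' (g : A k) : th' (aeval chI g) = (th' g).comp (sb 0) := by
  have h : (th' (k := k)).toRingHom.comp (aeval (chI) : A k →ₐ[k] A k).toRingHom =
      (Polynomial.compRingHom (sb 0)).comp (th' (k := k)).toRingHom := by
    refine MvPolynomial.ringHom_ext (fun c => ?_) fun i => ?_
    · simp [th']
    · fin_cases i
      · change th' (aeval chI (X 0)) = (th' (X 0)).comp (sb 0)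
        rw [aeval_X, chI0, map_mul]
        simp only [th', aeval_X, Matrix.cons_val_zero, Matrix.cons_val_one, Polynomial.X_comp, sb,
          map_zero, add_zero]
        ring
      · simp [th']
  exact congrArg (fun φ : A k →+* Polynomial (Polynomial k) => φ g) h

theorem fc_zero : fc (fun _ => (0 : k)) = 0 := by
  ext n
  rw [fc, PowerSeries.coeff_mk]
  simp

/-- a bad node of the minimal order, at which the restriction to `u = 0` has this order too -/
structure BV (m : ℕ) (d1 : Bool) (g : ι → A k) : Prop where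
  bad : Bad g true d1
  ord : IsOrd g m
  form : ∀ j, ∃ lam : k, r0 (g j) = Polynomial.C lam * Polynomial.X ^ m

/-- a bad node of the minimal order, at which the restriction to `v = 0` has this order too -/
structure BU (m : ℕ) (d0 : Bool) (g : ι → A k) : Prop where
  bad : Bad g d0 true
  ord : IsOrd g m
  form : ∀ j, ∃ lam : k, r1 (g j) = Polynomial.C lam * Polynomial.X ^ m

theorem mk_BV {m : ℕ} (hmin : ∀ (g : ι → A k) d0 d1 n, Bad g d0 d1 → IsOrd g n → m ≤ n)
    {g : ι → A k} (hm : IsOrd g m) {gc : k → ι → A k} {gI : ι → A k} (hB : Blow g m gc gI) (c : k)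
    {d1 : Bool} (hb : Bad (gc c) true d1) : BV m d1 (gc c) := by
  obtain ⟨n, hn⟩ := exists_ord (gc c) hb.ne
  obtain ⟨⟨j, hj⟩, -⟩ := lead_ne hm
  have h1 : r0 (gc c j) ≠ 0 := by
    rw [hB.r0c]
    exact comp_ne _ _ hj
  have hdeg : ∀ i, (r0 (gc c i)).natDegree ≤ m := fun i => by
    rw [hB.r0c]
    exact comp_deg _ _ _ (om_deg _ _)
  have h2 : n ≤ m := ord_le_of_r0 hn j h1 (hdeg j)
  have h3 : n = m := le_antisymm h2 (hmin _ _ _ _ hb hn)
  rw [h3] at hn
  exact ⟨hb, hn, fun i => r0_form hn i (hdeg i)⟩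

theorem mk_BU {m : ℕ} (hmin : ∀ (g : ι → A k) d0 d1 n, Bad g d0 d1 → IsOrd g n → m ≤ n)
    {g : ι → A k} (hm : IsOrd g m) {gc : k → ι → A k} {gI : ι → A k} (hB : Blow g m gc gI)
    {d0 : Bool} (hb : Bad gI d0 true) : BU m d0 gI := by
  obtain ⟨n, hn⟩ := exists_ord gI hb.ne
  obtain ⟨-, ⟨j, hj⟩⟩ := lead_ne hm
  have h1 : r1 (gI j) ≠ 0 := by
    rw [r1_lead (hB.hgI j)]
    exact hj
  have hdeg : ∀ i, (r1 (gI i)).natDegree ≤ m := fun i => by
    rw [r1_lead (hB.hgI i)]
    exact omI_deg _ _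
  have h2 : n ≤ m := ord_le_of_r1 hn j h1 (hdeg j)
  have h3 : n = m := le_antisymm h2 (hmin _ _ _ _ hb hn)
  rw [h3] at hn
  exact ⟨hb, hn, fun i => r1_form hn i (hdeg i)⟩

/-- the step of a chain of type `V` -/
theorem BV.step {m : ℕ} (hmin : ∀ (g : ι → A k) d0 d1 n, Bad g d0 d1 → IsOrd g n → m ≤ n)
    {d1 : Bool} {g : ι → A k} (h : BV m d1 g) :
    ∃ (c : k) (g' : ι → A k), (∀ j, aeval (ch c) (g j) = X 0 ^ m * g' j) ∧
      ((c ≠ 0 ∧ BV m false g') ∨ (c = 0 ∧ BV m d1 g')) := by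
  obtain ⟨gc, gI, hB⟩ := exists_blow g m h.ord.1
  rcases h.bad.child h.ord hB with h1 | ⟨c, hc, h1⟩ | h1
  · exact ⟨0, gc 0, hB.hgc 0, Or.inr ⟨rfl, mk_BV hmin h.ord hB 0 h1⟩⟩
  · exact ⟨c, gc c, hB.hgc c, Or.inl ⟨hc, mk_BV hmin h.ord hB c h1⟩⟩
  · exfalso
    apply h1.nt
    obtain ⟨j, hj⟩ := h.bad.h0 rfl
    refine KT.unit gI true true j ?_
    obtain ⟨lam, hlam⟩ := h.form j
    have hl : lam ≠ 0 := by
      rintro rfl
      rw [map_zero, zero_mul] at hlam
      exact hj hlam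
    have h2 : (r1 (gI j)).coeff 0 = lam := by
      rw [r1_lead (hB.hgI j), omI_coeff, if_pos (Nat.zero_le _), Nat.sub_zero, ← r0_coeff, hlam,
        Polynomial.coeff_C_mul, Polynomial.coeff_X_pow, if_pos rfl, mul_one]
    rw [cc_eq, ← r1_coeff, h2]
    exact hl

/-- no bad node of type `V` with `d1 = false` -/
theorem noBV_false {m : ℕ} (hmin : ∀ (g : ι → A k) d0 d1 n, Bad g d0 d1 → IsOrd g n → m ≤ n)
    (g : ι → A k) : ¬ BV m false g := by
  intro hg
  obtain ⟨a, b, ha0, hab⟩ := dep_seq (α := ι → A k) (β := k) (fun g => BV m false g)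
    (fun g c g' => ∀ j, aeval (ch c) (g j) = X 0 ^ m * g' j) (fun g hg => by
      obtain ⟨c, g', h1, h2⟩ := hg.step hmin
      refine ⟨c, g', h1, ?_⟩
      rcases h2 with ⟨_, h2⟩ | ⟨_, h2⟩ <;> exact h2) g hg
  have hm := hg.bad.pos hg.ord
  have hch : ∀ i j, (th (a i j)).comp (sb (b i)) = Polynomial.C (Polynomial.X ^ m) *
      th (a (i + 1) j) := by
    intro i j
    rw [← th_ch, hab i j, map_mul, map_pow, th_X0, Polynomial.C_pow]
  have hd := chain_dvd (fun i j => th (a i j)) b m hch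
  rw [ha0] at hd
  obtain ⟨j0, hj0⟩ := hg.bad.ne
  obtain ⟨H, K, hHK, hPsi⟩ := factor (fc b) (fun j => th (g j)) m hm
    ⟨j0, fun h => hj0 (th_inj (by rw [h, map_zero]))⟩ hd
  apply hg.bad.nt
  have hfac : ∀ j, g j = ht H ^ m * ht (K j) := by
    intro j
    rw [← map_pow, ← map_mul, ← hHK, ht_th]
  obtain ⟨j, hj⟩ := hg.bad.h0 rfl
  obtain ⟨lam, hlam⟩ := hg.form j
  have hl : lam ≠ 0 := by
    rintro rfl
    rw [map_zero, zero_mul] at hlam
    exact hj hlam
  have hH0 : (r0 (ht H)).coeff 0 = 0 := by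
    have h1 := congrArg (PowerSeries.constantCoeff (R := k)) hPsi
    rw [map_zero] at h1
    have h2 : (PowerSeries.constantCoeff (R := k)).comp (Psi (fc b)) =
        (Polynomial.evalRingHom 0).comp ((r0 (k := k)).toRingHom.comp (ht (k := k))) := by
      apply Polynomial.ringHom_ext'
      · apply Polynomial.ringHom_ext'
        · ext c
          simp [Psi, cs, ht, r0]
        · simp [Psi, cs, ht, r0]
      · simp [Psi, ht, r0, fc, ← PowerSeries.coeff_zero_eq_constantCoeff_apply]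
    have h3 := congrArg (fun φ : Polynomial (Polynomial k) →+* k => φ H) h2
    rw [Polynomial.coeff_zero_eq_eval_zero]
    have h4 : (PowerSeries.constantCoeff (R := k)) (Psi (fc b) H) = (r0 (ht H)).eval 0 := h3
    rw [← h4]
    exact h1
  obtain ⟨H1, hH1⟩ := Polynomial.X_dvd_iff.2 hH0
  have h5 : H1 ^ m * r0 (ht (K j)) = Polynomial.C lam := by
    have h6 := congrArg r0 (hfac j)
    rw [hlam, map_mul, map_pow, hH1, mul_pow, mul_assoc, mul_comm] at h6
    exact (mul_left_cancel₀ (pow_ne_zero _ Polynomial.X_ne_zero) h6).symm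
  have h6 := congrArg (Polynomial.eval 0) h5
  rw [Polynomial.eval_mul, Polynomial.eval_pow, Polynomial.eval_C] at h6
  have h7 : H1.eval 0 ≠ 0 := by
    intro h
    rw [h, zero_pow (by omega), zero_mul] at h6
    exact hl h6.symm
  have h8 : (r0 (ht (K j))).eval 0 ≠ 0 := by
    intro h
    rw [h, mul_zero] at h6
    exact hl h6.symm
  refine KT.curveV g true m hm (ht H) (fun i => ht (K i)) hfac ?_ ?_ j ?_
  · rw [cc_eq, ← r0_coeff]
    exact hH0
  · have h9 : constantCoeff (pderiv 1 (ht H)) = (r0 (ht H)).coeff 1 := by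
      rw [constantCoeff_eq, coeff_pderiv, r0_coeff]
      simp [ex]
    rw [h9, hH1]
    have h10 : (Polynomial.X * H1).coeff 1 = H1.coeff 0 := Polynomial.coeff_X_mul H1 0
    rw [h10, Polynomial.coeff_zero_eq_eval_zero]
    exact h7
  · rw [cc_eq, ← r0_coeff, Polynomial.coeff_zero_eq_eval_zero]
    exact h8

/-- no bad node of type `V` -/
theorem noBV {m : ℕ} (hmin : ∀ (g : ι → A k) d0 d1 n, Bad g d0 d1 → IsOrd g n → m ≤ n)
    (d1 : Bool) (g : ι → A k) : ¬ BV m d1 g := by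
  rcases Bool.eq_false_or_eq_true d1 with rfl | rfl
  · intro hg
    obtain ⟨a, b, ha0, hab⟩ := dep_seq (α := ι → A k) (β := k) (fun g => BV m true g)
      (fun g c g' => c = 0 ∧ ∀ j, aeval (ch c) (g j) = X 0 ^ m * g' j) (fun g hg => by
        obtain ⟨c, g', h1, h2⟩ := hg.step hmin
        rcases h2 with ⟨_, h2⟩ | ⟨h3, h2⟩
        · exact absurd h2 (noBV_false hmin g')
        · exact ⟨c, g', ⟨h3, h1⟩, h2⟩) g hg
    have hm := hg.bad.pos hg.ord
    have hch : ∀ i j, (th (a i j)).comp (sb ((fun _ => 0 : ℕ → k) i)) =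
        Polynomial.C (Polynomial.X ^ m) * th (a (i + 1) j) := by
      intro i j
      obtain ⟨h1, h2⟩ := hab i
      have h3 := h2 j
      rw [h1] at h3
      rw [← th_ch, h3, map_mul, map_pow, th_X0, Polynomial.C_pow]
    have hd := chain_dvd (fun i j => th (a i j)) (fun _ => 0) m hch
    rw [ha0, fc_zero] at hd
    obtain ⟨j, hj⟩ := hg.bad.h1 rfl
    apply hj
    have h1 := hd j
    rw [map_zero, sub_zero, Polynomial.X_pow_dvd_iff] at h1
    have h2 := h1 0 (by omega)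
    rw [Polynomial.coeff_map] at h2
    rw [← th_r1]
    exact cs_inj (by rw [h2, map_zero])
  · exact noBV_false hmin g

/-- no bad node of type `U` -/
theorem noBU {m : ℕ} (hmin : ∀ (g : ι → A k) d0 d1 n, Bad g d0 d1 → IsOrd g n → m ≤ n)
    (d0 : Bool) (g : ι → A k) : ¬ BU m d0 g := by
  intro hg
  obtain ⟨a, b, ha0, hab⟩ := dep_seq (α := ι → A k) (β := Unit) (fun g => BU m d0 g)
    (fun g _ g' => ∀ j, aeval chI (g j) = X 1 ^ m * g' j) (fun g h => by
      obtain ⟨gc, gI, hB⟩ := exists_blow g m h.ord.1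
      rcases h.bad.child h.ord hB with h1 | ⟨c, hc, h1⟩ | h1
      · exact absurd (mk_BV hmin h.ord hB 0 h1) (noBV hmin _ _)
      · exact absurd (mk_BV hmin h.ord hB c h1) (noBV hmin _ _)
      · exact ⟨(), gI, hB.hgI, mk_BU hmin h.ord hB h1⟩) g hg
  have hm := hg.bad.pos hg.ord
  have hch : ∀ i j, (th' (a i j)).comp (sb ((fun _ => 0 : ℕ → k) i)) =
      Polynomial.C (Polynomial.X ^ m) * th' (a (i + 1) j) := by
    intro i j
    have h3 := hab i j
    have h4 : th' (X 1 : A k) = Polynomial.C Polynomial.X := by simp [th']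
    rw [← th_chI', h3, map_mul, map_pow, h4, Polynomial.C_pow]
  have hd := chain_dvd (fun i j => th' (a i j)) (fun _ => 0) m hch
  rw [ha0, fc_zero] at hd
  have hX : ∀ j, ∃ κ : A k, g j = X 0 ^ m * κ := by
    intro j
    have h1 := hd j
    rw [map_zero, sub_zero, Polynomial.X_pow_dvd_iff] at h1
    have h2 : (Polynomial.X : Polynomial (Polynomial k)) ^ m ∣ th' (g j) := by
      rw [Polynomial.X_pow_dvd_iff]
      intro d hdm
      have h3 := h1 d hdm
      rw [Polynomial.coeff_map] at h3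
      exact cs_inj (by rw [h3, map_zero])
    obtain ⟨q, hq⟩ := h2
    refine ⟨ht' q, ?_⟩
    rw [← ht_th' (g j), hq, map_mul, map_pow]
    congr 2
    simp [ht']
  choose κ hκ using hX
  have hr0 : ∀ j, r0 (g j) = 0 := by
    intro j
    have h3 : r0 (X 0 : A k) = 0 := by simp [r0]
    rw [hκ, map_mul, map_pow, h3, zero_pow (by omega), zero_mul]
  rcases Bool.eq_false_or_eq_true d0 with rfl | rfl
  · obtain ⟨j, hj⟩ := hg.bad.h0 rfl
    exact hj (hr0 j)
  · obtain ⟨j, hj⟩ := hg.bad.h1 rfl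
    obtain ⟨lam, hlam⟩ := hg.form j
    have hl : lam ≠ 0 := by
      rintro rfl
      rw [map_zero, zero_mul] at hlam
      exact hj hlam
    apply hg.bad.nt
    refine KT.curveU g true m hm (X 0) κ hκ (by simp) (by simp) j ?_
    have h1 : r1 (κ j) = Polynomial.C lam := by
      have h2 := congrArg r1 (hκ j)
      have h3 : r1 (X 0 : A k) = Polynomial.X := by simp [r1]
      rw [hlam, map_mul, map_pow, h3, mul_comm] at h2
      exact (mul_left_cancel₀ (pow_ne_zero _ Polynomial.X_ne_zero) h2).symm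
    rw [cc_eq, ← r1_coeff, h1, Polynomial.coeff_C_zero]
    exact hl

/-- **Existence of the tree of blow-ups.** -/
theorem exists_KT (g : ι → A k) (d0 d1 : Bool) (hne : ∃ j, g j ≠ 0)
    (h0 : d0 = true → ∃ j, r0 (g j) ≠ 0) (h1 : d1 = true → ∃ j, r1 (g j) ≠ 0) : KT g d0 d1 := by
  classical
  by_contra hnt
  have hbad : ∃ n, ∃ (g : ι → A k) (d0 d1 : Bool), Bad g d0 d1 ∧ IsOrd g n := by
    obtain ⟨n, hn⟩ := exists_ord g hne
    exact ⟨n, g, d0, d1, ⟨hne, h0, h1, hnt⟩, hn⟩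
  set m := Nat.find hbad with hm
  obtain ⟨g', d0', d1', hb, ho⟩ := Nat.find_spec hbad
  have hmin : ∀ (g : ι → A k) d0 d1 n, Bad g d0 d1 → IsOrd g n → m ≤ n := by
    intro g d0 d1 n hb ho
    exact Nat.find_min' hbad ⟨g, d0, d1, hb, ho⟩
  obtain ⟨gc, gI, hB⟩ := exists_blow g' m ho.1
  rcases hb.child ho hB with h1 | ⟨c, hc, h1⟩ | h1
  · exact noBV hmin _ _ (mk_BV hmin ho hB 0 h1)
  · exact noBV hmin _ _ (mk_BV hmin ho hB c h1)
  · exact noBU hmin _ _ (mk_BU hmin ho hB h1)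

end Pool.Agent.Y230.RE
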