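import Pool.Agent.Y230.RE.Chain

set_option autoImplicit false
set_option linter.unusedSectionVars false

/-! # Blowing up points of the plane over a field: charts and trees -/

namespace Pool.Agent.Y230.RE

open MvPolynomial

section Gen

variable {k : Type} [Field k] {ι : Type}

/-- the polynomials in two variables -/
abbrev A (k : Type) [Field k] := MvPolynomial (Fin 2) k

/-- the chart `(u, v) ↦ (u, u (v + c))` -/
noncomputable def ch (c : k) : Fin 2 → A k := ![X 0, X 0 * (X 1 + C c)]

/-- the chart `(u, v) ↦ (u v, v)` -/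
noncomputable def chI : Fin 2 → A k := ![X 0 * X 1, X 1]

/-- restriction to `u = 0` -/
noncomputable def r0 : A k →ₐ[k] Polynomial k := aeval ![0, Polynomial.X]

/-- restriction to `v = 0` -/
noncomputable def r1 : A k →ₐ[k] Polynomial k := aeval ![Polynomial.X, 0]

@[simp] theorem ch0 (c : k) : ch c 0 = X 0 := rfl
@[simp] theorem ch1 (c : k) : ch c 1 = X 0 * (X 1 + C c) := rfl
@[simp] theorem chI0 : (chI : Fin 2 → A k) 0 = X 0 * X 1 := rfl
@[simp] theorem chI1 : (chI : Fin 2 → A k) 1 = X 1 := rfl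

theorem hom_ext2 {R : Type} [CommRing R] [Algebra k R] {f g : A k →ₐ[k] R}
    (h0 : f (X 0) = g (X 0)) (h1 : f (X 1) = g (X 1)) : f = g := by
  refine MvPolynomial.algHom_ext fun i => ?_
  fin_cases i
  · exact h0
  · exact h1

/-- the exponent `(a, b)` -/
noncomputable def ex (a b : ℕ) : Fin 2 →₀ ℕ := Finsupp.single 0 a + Finsupp.single 1 b

theorem ex_eta (μ : Fin 2 →₀ ℕ) : ex (μ 0) (μ 1) = μ := by
  ext i
  fin_cases i
  · simp [ex]
  · simp [ex]

@[simp] theorem ex_0 (a b : ℕ) : ex a b 0 = a := by simp [ex]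
@[simp] theorem ex_1 (a b : ℕ) : ex a b 1 = b := by simp [ex]

theorem ex_inj (a b a' b' : ℕ) : ex a b = ex a' b' ↔ a = a' ∧ b = b' := by
  constructor
  · intro h
    exact ⟨by simpa using congrArg (fun μ => μ 0) h, by simpa using congrArg (fun μ => μ 1) h⟩
  · rintro ⟨rfl, rfl⟩; rfl

theorem ex_degree (a b : ℕ) : (ex a b).degree = a + b := by
  simp [ex]

theorem mon_eq (a b : ℕ) (c : k) : monomial (ex a b) c = C c * (X 0 ^ a * X 1 ^ b) := by
  rw [X_pow_eq_monomial, X_pow_eq_monomial, monomial_mul, C_mul_monomial, ex, mul_one, mul_one]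

theorem ind2 {P : A k → Prop} (hm : ∀ a b c, P (monomial (ex a b) c))
    (ha : ∀ f g, P f → P g → P (f + g)) (f : A k) : P f := by
  induction f using MvPolynomial.induction_on' with
  | monomial μ c => rw [← ex_eta μ]; exact hm _ _ _
  | add f g hf hg => exact ha f g hf hg

theorem r0_coeff (g : A k) (i : ℕ) : (r0 g).coeff i = coeff (ex 0 i) g := by
  induction g using ind2 with
  | hm a b c =>
    rw [coeff_monomial, mon_eq, map_mul, map_mul, map_pow, map_pow, r0, aeval_X, aeval_X, aeval_C]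
    simp only [Matrix.cons_val_zero, Matrix.cons_val_one]
    change (Polynomial.C c * ((0 : Polynomial k) ^ a * Polynomial.X ^ b)).coeff i = _
    rw [Polynomial.coeff_C_mul]
    by_cases ha : a = 0
    · subst ha
      rw [pow_zero, one_mul, Polynomial.coeff_X_pow]
      by_cases hb : i = b
      · subst hb; simp
      · rw [if_neg hb, if_neg, mul_zero]
        intro h
        exact hb ((ex_inj _ _ _ _).1 h).2.symm
    · rw [zero_pow ha, zero_mul, Polynomial.coeff_zero, mul_zero, if_neg]
      intro h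
      exact ha ((ex_inj _ _ _ _).1 h).1
  | ha f g hf hg => rw [map_add, Polynomial.coeff_add, hf, hg, coeff_add]

theorem r1_coeff (g : A k) (i : ℕ) : (r1 g).coeff i = coeff (ex i 0) g := by
  induction g using ind2 with
  | hm a b c =>
    rw [coeff_monomial, mon_eq, map_mul, map_mul, map_pow, map_pow, r1, aeval_X, aeval_X, aeval_C]
    simp only [Matrix.cons_val_zero, Matrix.cons_val_one]
    change (Polynomial.C c * (Polynomial.X ^ a * (0 : Polynomial k) ^ b)).coeff i = _
    rw [Polynomial.coeff_C_mul]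
    by_cases ha : b = 0
    · subst ha
      rw [pow_zero, mul_one, Polynomial.coeff_X_pow]
      by_cases hb : i = a
      · subst hb; simp
      · rw [if_neg hb, if_neg, mul_zero]
        intro h
        exact hb ((ex_inj _ _ _ _).1 h).1.symm
    · rw [zero_pow ha, mul_zero, Polynomial.coeff_zero, mul_zero, if_neg]
      intro h
      exact ha ((ex_inj _ _ _ _).1 h).2
  | ha f g hf hg => rw [map_add, Polynomial.coeff_add, hf, hg, coeff_add]

theorem cc_eq (g : A k) : constantCoeff g = coeff (ex 0 0) g := by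
  rw [constantCoeff_eq]
  congr 1
  ext i
  simp [ex]

/-- `g(t, t v)` as a polynomial in `t` -/
noncomputable def om : A k →ₐ[k] Polynomial (Polynomial k) :=
  aeval ![Polynomial.X, Polynomial.C Polynomial.X * Polynomial.X]

/-- `g(t u, t)` as a polynomial in `t` -/
noncomputable def omI : A k →ₐ[k] Polynomial (Polynomial k) :=
  aeval ![Polynomial.C Polynomial.X * Polynomial.X, Polynomial.X]

theorem om_mon (a b : ℕ) (c : k) : om (monomial (ex a b) c) =
    Polynomial.C (Polynomial.C c * Polynomial.X ^ b) * Polynomial.X ^ (a + b) := by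
  rw [mon_eq, map_mul, map_mul, map_pow, map_pow, om, aeval_X, aeval_X, aeval_C]
  simp only [Matrix.cons_val_zero, Matrix.cons_val_one]
  change Polynomial.C (Polynomial.C c) * _ = _
  rw [mul_pow, Polynomial.C_mul, Polynomial.C_pow]
  ring

theorem omI_mon (a b : ℕ) (c : k) : omI (monomial (ex a b) c) =
    Polynomial.C (Polynomial.C c * Polynomial.X ^ a) * Polynomial.X ^ (a + b) := by
  rw [mon_eq, map_mul, map_mul, map_pow, map_pow, omI, aeval_X, aeval_X, aeval_C]
  simp only [Matrix.cons_val_zero, Matrix.cons_val_one]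
  change Polynomial.C (Polynomial.C c) * _ = _
  rw [mul_pow, Polynomial.C_mul, Polynomial.C_pow]
  ring

theorem om_coeff (g : A k) (m i : ℕ) :
    ((om g).coeff m).coeff i = if i ≤ m then coeff (ex (m - i) i) g else 0 := by
  induction g using ind2 with
  | hm a b c =>
    rw [om_mon, Polynomial.coeff_C_mul, Polynomial.coeff_X_pow, coeff_monomial]
    by_cases h1 : m = a + b
    · rw [if_pos h1, mul_one, Polynomial.coeff_C_mul, Polynomial.coeff_X_pow]
      by_cases h2 : i = b
      · rw [if_pos h2, mul_one, if_pos (by omega), if_pos]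
        rw [ex_inj]; omega
      · rw [if_neg h2, mul_zero]
        by_cases h3 : i ≤ m
        · rw [if_pos h3, if_neg]
          rw [ex_inj]; omega
        · rw [if_neg h3]
    · rw [if_neg h1, mul_zero, Polynomial.coeff_zero]
      by_cases h3 : i ≤ m
      · rw [if_pos h3, if_neg]
        rw [ex_inj]; omega
      · rw [if_neg h3]
  | ha f g hf hg =>
    rw [map_add, Polynomial.coeff_add, Polynomial.coeff_add, hf, hg, coeff_add]
    split_ifs <;> simp

theorem omI_coeff (g : A k) (m i : ℕ) :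
    ((omI g).coeff m).coeff i = if i ≤ m then coeff (ex i (m - i)) g else 0 := by
  induction g using ind2 with
  | hm a b c =>
    rw [omI_mon, Polynomial.coeff_C_mul, Polynomial.coeff_X_pow, coeff_monomial]
    by_cases h1 : m = a + b
    · rw [if_pos h1, mul_one, Polynomial.coeff_C_mul, Polynomial.coeff_X_pow]
      by_cases h2 : i = a
      · rw [if_pos h2, mul_one, if_pos (by omega), if_pos]
        rw [ex_inj]; omega
      · rw [if_neg h2, mul_zero]
        by_cases h3 : i ≤ m
        · rw [if_pos h3, if_neg]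
          rw [ex_inj]; omega
        · rw [if_neg h3]
    · rw [if_neg h1, mul_zero, Polynomial.coeff_zero]
      by_cases h3 : i ≤ m
      · rw [if_pos h3, if_neg]
        rw [ex_inj]; omega
      · rw [if_neg h3]
  | ha f g hf hg =>
    rw [map_add, Polynomial.coeff_add, Polynomial.coeff_add, hf, hg, coeff_add]
    split_ifs <;> simp

/-- the two variables as iterated polynomials -/
noncomputable def omV : A k →ₐ[k] Polynomial (Polynomial k) :=
  aeval ![Polynomial.X, Polynomial.C Polynomial.X]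

noncomputable def omU : A k →ₐ[k] Polynomial (Polynomial k) :=
  aeval ![Polynomial.C Polynomial.X, Polynomial.X]

theorem omV_coeff0 (g : A k) : (omV g).coeff 0 = r0 g := by
  have h : (Polynomial.aeval (0 : Polynomial k)).toRingHom.comp (omV (k := k)).toRingHom =
      (r0 (k := k)).toRingHom := by
    refine MvPolynomial.ringHom_ext (fun c => ?_) fun i => ?_
    · simp [omV, r0]
    · fin_cases i <;> simp [omV, r0]
  have h1 := congrArg (fun φ : A k →+* Polynomial k => φ g) h
  rw [Polynomial.coeff_zero_eq_eval_zero]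
  simpa using h1

theorem omU_coeff0 (g : A k) : (omU g).coeff 0 = r1 g := by
  have h : (Polynomial.aeval (0 : Polynomial k)).toRingHom.comp (omU (k := k)).toRingHom =
      (r1 (k := k)).toRingHom := by
    refine MvPolynomial.ringHom_ext (fun c => ?_) fun i => ?_
    · simp [omU, r1]
    · fin_cases i <;> simp [omU, r1]
  have h1 := congrArg (fun φ : A k →+* Polynomial k => φ g) h
  rw [Polynomial.coeff_zero_eq_eval_zero]
  simpa using h1

theorem r0_lead {g g' : A k} {m : ℕ} (h : aeval (ch 0) g = X 0 ^ m * g') :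
    r0 g' = (om g).coeff m := by
  have h1 : (omV (k := k)).comp (aeval (ch 0)) = om := by
    apply hom_ext2
    · simp [omV, om]
    · rw [AlgHom.comp_apply, aeval_X, ch1, C_0, add_zero, map_mul]
      simp only [omV, om, aeval_X, Matrix.cons_val_zero, Matrix.cons_val_one]
      ring
  have h2 := congrArg omV h
  rw [← AlgHom.comp_apply, h1, map_mul, map_pow] at h2
  have h3 : omV (X 0 : A k) = Polynomial.X := by simp [omV]
  rw [h2, h3, Polynomial.coeff_X_pow_mul', if_pos le_rfl, Nat.sub_self, omV_coeff0]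

theorem r1_lead {g g' : A k} {m : ℕ} (h : aeval chI g = X 1 ^ m * g') :
    r1 g' = (omI g).coeff m := by
  have h1 : (omU (k := k)).comp (aeval chI) = omI := by
    apply hom_ext2
    · simp [omU, omI]
    · simp [omU, omI]
  have h2 := congrArg omU h
  rw [← AlgHom.comp_apply, h1, map_mul, map_pow] at h2
  have h3 : omU (X 1 : A k) = Polynomial.X := by simp [omU]
  rw [h2, h3, Polynomial.coeff_X_pow_mul', if_pos le_rfl, Nat.sub_self, omU_coeff0]

theorem ch_dvd (g : A k) (m : ℕ) (h : ∀ μ : Fin 2 →₀ ℕ, μ.degree < m → coeff μ g = 0) (c : k) :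
    X 0 ^ m ∣ aeval (ch c) g := by
  rw [g.as_sum, map_sum]
  refine Finset.dvd_sum fun μ hμ => ?_
  have hm : m ≤ μ 0 + μ 1 := by
    by_contra hlt
    rw [mem_support_iff] at hμ
    refine hμ (h μ ?_)
    rw [← ex_eta μ, ex_degree]
    omega
  rw [← ex_eta μ, mon_eq, map_mul, map_mul, map_pow, map_pow, aeval_X, aeval_X, ch0, ch1]
  have h2 : (X 0 : A k) ^ (μ 0) * (X 0 * (X 1 + C c)) ^ (μ 1) =
      X 0 ^ m * (X 0 ^ (μ 0 + μ 1 - m) * (X 1 + C c) ^ (μ 1)) := by
    rw [mul_pow, ← mul_assoc, ← mul_assoc, ← pow_add, ← pow_add, Nat.add_sub_cancel' hm]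
  rw [h2]
  exact Dvd.dvd.mul_left (Dvd.intro _ rfl) _

theorem chI_dvd (g : A k) (m : ℕ) (h : ∀ μ : Fin 2 →₀ ℕ, μ.degree < m → coeff μ g = 0) :
    (X 1 : A k) ^ m ∣ aeval (chI : Fin 2 → A k) g := by
  rw [g.as_sum, map_sum]
  refine Finset.dvd_sum fun μ hμ => ?_
  have hm : m ≤ μ 0 + μ 1 := by
    by_contra hlt
    rw [mem_support_iff] at hμ
    refine hμ (h μ ?_)
    rw [← ex_eta μ, ex_degree]
    omega
  rw [← ex_eta μ, mon_eq, map_mul, map_mul, map_pow, map_pow, aeval_X, aeval_X, chI0, chI1]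
  have h2 : ((X 0 : A k) * X 1) ^ (μ 0) * (X 1) ^ (μ 1) =
      X 1 ^ m * (X 1 ^ (μ 0 + μ 1 - m) * (X 0) ^ (μ 0)) := by
    rw [mul_pow, ← mul_assoc (X 1 ^ m), ← pow_add, Nat.add_sub_cancel' hm]
    ring
  rw [h2]
  exact Dvd.dvd.mul_left (Dvd.intro _ rfl) _

theorem ch_shift {g g0 gc : A k} {m : ℕ} {c : k} (h0 : aeval (ch 0) g = X 0 ^ m * g0)
    (hc : aeval (ch c) g = X 0 ^ m * gc) : gc = aeval ![X 0, X 1 + C c] g0 := by
  have h1 : (aeval ![X 0, X 1 + C c] : A k →ₐ[k] A k).comp (aeval (ch 0)) = aeval (ch c) := by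
    apply hom_ext2
    · simp
    · simp
  have h2 := congrArg (aeval ![X 0, X 1 + C c] : A k →ₐ[k] A k) h0
  rw [← AlgHom.comp_apply, h1, hc, map_mul, map_pow, aeval_X] at h2
  exact mul_left_cancel₀ (pow_ne_zero _ (X_ne_zero 0)) h2

theorem r0_shift (g0 : A k) (c : k) :
    r0 (aeval ![X 0, X 1 + C c] g0) = (r0 g0).comp (Polynomial.X + Polynomial.C c) := by
  have h1 : (r0 (k := k)).comp (aeval ![X 0, X 1 + C c]) =
      (Polynomial.aeval (Polynomial.X + Polynomial.C c)).comp r0 := by
    apply hom_ext2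
    · simp [r0]
    · simp [r0]
  have h2 := congrArg (fun φ : A k →ₐ[k] Polynomial k => φ g0) h1
  simpa [Polynomial.comp, Polynomial.aeval_def] using h2

theorem r1_ch {g g' : A k} {m : ℕ} (h : aeval (ch 0) g = X 0 ^ m * g') :
    r1 g = Polynomial.X ^ m * r1 g' := by
  have h1 : (r1 (k := k)).comp (aeval (ch 0)) = r1 := by
    apply hom_ext2
    · simp [r1]
    · simp [r1]
  have h2 := congrArg r1 h
  rw [← AlgHom.comp_apply, h1, map_mul, map_pow] at h2
  have h3 : r1 (X 0 : A k) = Polynomial.X := by simp [r1]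
  rw [h2, h3]

theorem r0_chI {g g' : A k} {m : ℕ} (h : aeval chI g = X 1 ^ m * g') :
    r0 g = Polynomial.X ^ m * r0 g' := by
  have h1 : (r0 (k := k)).comp (aeval chI) = r0 := by
    apply hom_ext2
    · simp [r0]
    · simp [r0]
  have h2 := congrArg r0 h
  rw [← AlgHom.comp_apply, h1, map_mul, map_pow] at h2
  have h3 : r0 (X 1 : A k) = Polynomial.X := by simp [r0]
  rw [h2, h3]

/-- The tree of blow-ups of points which resolves the family `g` at the origin; `d0` and `d1` say
whether `u = 0` resp. `v = 0` is an exceptional curve. -/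
inductive KT : (ι → A k) → Bool → Bool → Prop
  | unit (g : ι → A k) (d0 d1 : Bool) (j : ι) (hj : constantCoeff (g j) ≠ 0) : KT g d0 d1
  | curveV (g : ι → A k) (d0 : Bool) (m : ℕ) (hm : 1 ≤ m) (h : A k) (κ : ι → A k)
      (hg : ∀ j, g j = h ^ m * κ j) (h0 : constantCoeff h = 0)
      (h1 : constantCoeff (pderiv 1 h) ≠ 0) (j : ι) (hj : constantCoeff (κ j) ≠ 0) :
      KT g d0 false
  | curveU (g : ι → A k) (d1 : Bool) (m : ℕ) (hm : 1 ≤ m) (h : A k) (κ : ι → A k)
      (hg : ∀ j, g j = h ^ m * κ j) (h0 : constantCoeff h = 0)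
      (h1 : constantCoeff (pderiv 0 h) ≠ 0) (j : ι) (hj : constantCoeff (κ j) ≠ 0) :
      KT g false d1
  | blowup (g : ι → A k) (d0 d1 : Bool) (m : ℕ) (hm : 1 ≤ m) (gc : k → ι → A k) (gI : ι → A k)
      (hgc : ∀ c j, aeval (ch c) (g j) = X 0 ^ m * gc c j)
      (hgI : ∀ j, aeval chI (g j) = X 1 ^ m * gI j) (hne : ∃ j, r0 (gc 0 j) ≠ 0)
      (h0 : KT (gc 0) true d1) (hc : ∀ c, c ≠ 0 → KT (gc c) true false) (hI : KT gI d0 true) :
      KT g d0 d1

end Gen

end Pool.Agent.Y230.RE
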