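import Pool.Agent.Y230.RE.Factor

set_option autoImplicit false
set_option linter.unusedSectionVars false

/-! # Infinitely near points of the same multiplicity lie on a curve -/

namespace Pool.Agent.Y230.RE

open Polynomial

variable {k : Type} [Field k] [CharZero k] {ι : Type}

/-- the substitution `v = u (v' + c)` -/
noncomputable def sb (c : k) : k[X][X] := C X * (X + C (C c))

/-- the approximations of the formal curve -/
noncomputable def ap (c : ℕ → k) : ℕ → k[X]
  | 0 => 0
  | N + 1 => ap c N + C (c N) * X ^ (N + 1)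

/-- the formal curve -/
noncomputable def fc (c : ℕ → k) : PowerSeries k :=
  PowerSeries.mk fun n => if n = 0 then 0 else c (n - 1)

theorem ap_coeff (c : ℕ → k) (N n : ℕ) :
    (ap c N).coeff n = if n ≠ 0 ∧ n ≤ N then c (n - 1) else 0 := by
  induction N with
  | zero =>
    rw [ap, coeff_zero, if_neg]
    rintro ⟨h1, h2⟩
    omega
  | succ N ih =>
    rw [ap, coeff_add, ih, coeff_C_mul, coeff_X_pow]
    by_cases h : n = N + 1
    · subst h
      rw [if_neg (by omega), if_pos rfl, mul_one, zero_add, if_pos ⟨by omega, le_rfl⟩]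
      rfl
    · rw [if_neg h, mul_zero, add_zero]
      by_cases h2 : n ≠ 0 ∧ n ≤ N
      · rw [if_pos h2, if_pos ⟨h2.1, by omega⟩]
      · rw [if_neg h2, if_neg]
        rintro ⟨h3, h4⟩
        exact h2 ⟨h3, by omega⟩

theorem fc_sub (c : ℕ → k) (N : ℕ) : (PowerSeries.X : PowerSeries k) ^ N ∣ fc c - cs (ap c N) := by
  rw [PowerSeries.X_pow_dvd_iff]
  intro n hn
  rw [map_sub, sub_eq_zero]
  have h1 : PowerSeries.coeff n (cs (ap c N)) = (ap c N).coeff n := Polynomial.coeff_coe _ _
  rw [h1, ap_coeff, fc, PowerSeries.coeff_mk]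
  by_cases h : n = 0
  · rw [if_pos h, if_neg (fun h2 => h2.1 h)]
  · rw [if_neg h, if_pos ⟨h, by omega⟩]

theorem chain_comp (G : ℕ → ι → k[X][X]) (c : ℕ → k) (m : ℕ)
    (h : ∀ i j, (G i j).comp (sb (c i)) = C (X ^ m) * G (i + 1) j) (N : ℕ) (j : ι) :
    (G 0 j).comp (C (X ^ N) * X + C (ap c N)) = C (X ^ (m * N)) * G N j := by
  induction N with
  | zero =>
    rw [ap, pow_zero, C_1, one_mul, C_0, add_zero, comp_X, mul_zero, pow_zero, C_1, one_mul]
  | succ N ih =>
    have h1 := congrArg (fun q => q.comp (sb (c N))) ih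
    simp only [comp_assoc] at h1
    have h2 : (C (X ^ N) * X + C (ap c N) : k[X][X]).comp (sb (c N)) =
        C (X ^ (N + 1)) * X + C (ap c (N + 1)) := by
      rw [add_comp, mul_comp, C_comp, X_comp, C_comp, sb, ap, C_add, C_mul, pow_succ,
        C_mul]
      ring
    rw [h2, mul_comp, C_comp, h] at h1
    rw [h1, ← mul_assoc, ← C_mul, ← pow_add]
    congr 3

theorem hd_map {R S : Type} [CommRing R] [CommRing S] (f : R →+* S) (i : ℕ) (G : R[X]) :
    hasseDeriv i (G.map f) = (hasseDeriv i G).map f := by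
  ext n
  rw [hasseDeriv_coeff, coeff_map, coeff_map, hasseDeriv_coeff, map_mul, map_natCast]

theorem chain_dvd (G : ℕ → ι → k[X][X]) (c : ℕ → k) (m : ℕ)
    (h : ∀ i j, (G i j).comp (sb (c i)) = C (X ^ m) * G (i + 1) j) (j : ι) :
    (X - C (fc c)) ^ m ∣ (G 0 j).map cs := by
  rw [X_sub_C_pow_dvd_iff, X_pow_dvd_iff]
  intro i hi
  have h0 : ((G 0 j).map cs).comp (X + C (fc c)) = taylor (fc c) ((G 0 j).map cs) := by
    rw [taylor_apply]
  rw [h0, taylor_coeff]
  -- divisible by every power of `X`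
  have hN : ∀ N : ℕ, (PowerSeries.X : PowerSeries k) ^ N ∣
      (hasseDeriv i ((G 0 j).map cs)).eval (fc c) := by
    intro N
    have h1 : (PowerSeries.X : PowerSeries k) ^ N ∣
        (hasseDeriv i ((G 0 j).map cs)).eval (fc c) -
        (hasseDeriv i ((G 0 j).map cs)).eval (cs (ap c N)) :=
      (fc_sub c N).trans (sub_dvd_eval_sub _ _ _)
    have h2 : (X : k[X]) ^ N ∣ (hasseDeriv i (G 0 j)).eval (ap c N) := by
      have h3 := congrArg (fun q => q.coeff i) (chain_comp G c m h N j)
      have h4 : (C (X ^ N) * X + C (ap c N) : k[X][X]) = (X + C (ap c N)).comp (C (X ^ N) * X) := by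
        rw [add_comp, X_comp, C_comp]
      beta_reduce at h3
      rw [h4, ← comp_assoc, ← taylor_apply, comp_C_mul_X_coeff, coeff_C_mul, taylor_coeff] at h3
      have h5 : m * N = N * i + N * (m - i) := by
        rw [← Nat.mul_add, Nat.add_sub_cancel' hi.le, Nat.mul_comm]
      rw [← pow_mul, h5, pow_add, mul_assoc, mul_comm] at h3
      have h6 := mul_left_cancel₀ (pow_ne_zero _ X_ne_zero) h3
      rw [h6]
      refine Dvd.dvd.mul_right ?_ _
      exact pow_dvd_pow _ (Nat.le_mul_of_pos_right N (by omega))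
    have h3 : (PowerSeries.X : PowerSeries k) ^ N ∣
        (hasseDeriv i ((G 0 j).map cs)).eval (cs (ap c N)) := by
      rw [hd_map, eval_map, eval₂_at_apply]
      have h4 := map_dvd cs h2
      rw [map_pow] at h4
      have h5 : cs (X : k[X]) = PowerSeries.X := Polynomial.coe_X
      rwa [h5] at h4
    have h4 := dvd_add h1 h3
    rwa [sub_add_cancel] at h4
  ext n
  rw [map_zero]
  exact (PowerSeries.X_pow_dvd_iff.1 (hN (n + 1))) n (Nat.lt_succ_self n)

end Pool.Agent.Y230.RE
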