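import Mathlib

set_option autoImplicit false

/-! # Polynomials with a common formal root of high multiplicity -/

namespace Pool.Agent.Y230.RE

open Polynomial

variable {k : Type} [Field k] [CharZero k]

/-- the embedding of the polynomials in the power series -/
noncomputable def cs : k[X] →+* PowerSeries k := Polynomial.coeToPowerSeries.ringHom

theorem cs_inj : Function.Injective (cs (k := k)) := Polynomial.coe_injective k

/-- evaluation at a formal curve `v = φ(u)` -/
noncomputable def Psi (φ : PowerSeries k) : k[X][X] →+* PowerSeries k := eval₂RingHom cs φ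

theorem Psi_eq (φ : PowerSeries k) (G : k[X][X]) : Psi φ G = (G.map cs).eval φ := by
  rw [Psi, coe_eval₂RingHom, eval_map]

theorem Psi_C (φ : PowerSeries k) (r : k[X]) : Psi φ (C r) = cs r := by
  rw [Psi, coe_eval₂RingHom, eval₂_C]

/-- the kernel of the evaluation is generated by an irreducible polynomial -/
theorem kernel (φ : PowerSeries k) (G0 : k[X][X]) (hG0 : G0 ≠ 0) (h0 : Psi φ G0 = 0) :
    ∃ h : k[X][X], Psi φ h = 0 ∧ Prime h ∧ 0 < h.natDegree ∧ ∀ f, Psi φ f = 0 → h ∣ f := by
  classical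
  obtain ⟨h, hP, hirr⟩ : ∃ h : k[X][X], Psi φ h = 0 ∧ Prime h := by
    obtain ⟨s, hs, u, hu⟩ := UniqueFactorizationMonoid.exists_prime_factors G0 hG0
    have h1 : Psi φ (s.prod * u) = 0 := by rw [hu, h0]
    rw [map_mul] at h1
    have hu' : Psi φ (u : k[X][X]) ≠ 0 := (u.isUnit.map (Psi φ)).ne_zero
    have h2 := (mul_eq_zero.1 h1).resolve_right hu'
    rw [map_multiset_prod, Multiset.prod_eq_zero_iff, Multiset.mem_map] at h2
    obtain ⟨h, hh, h3⟩ := h2
    exact ⟨h, h3, hs h hh⟩
  have hdeg : 0 < h.natDegree := by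
    rw [Nat.pos_iff_ne_zero]
    intro hd
    rw [eq_C_of_natDegree_eq_zero hd, Psi_C] at hP
    have : h.coeff 0 = 0 := cs_inj (by rw [hP, map_zero])
    rw [eq_C_of_natDegree_eq_zero hd, this, C_0] at hirr
    exact hirr.ne_zero rfl
  refine ⟨h, hP, hirr, hdeg, fun f hf => ?_⟩
  have hprim : h.IsPrimitive := hirr.irreducible.isPrimitive hdeg.ne'
  set F := FractionRing k[X] with hF
  set L := FractionRing (PowerSeries k) with hL
  by_contra hnd
  have h1 : ¬ h.map (algebraMap k[X] F) ∣ f.map (algebraMap k[X] F) := fun hd =>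
    hnd (hprim.dvd_of_fraction_map_dvd_fraction_map hd)
  have h2 : Irreducible (h.map (algebraMap k[X] F)) :=
    (hprim.irreducible_iff_irreducible_map_fraction_map).1 hirr.irreducible
  have h3 : IsCoprime (h.map (algebraMap k[X] F)) (f.map (algebraMap k[X] F)) :=
    (h2.coprime_iff_not_dvd).2 h1
  obtain ⟨a, b, hab⟩ := h3
  have hinj : Function.Injective ((algebraMap (PowerSeries k) L).comp cs) := by
    rw [RingHom.coe_comp]
    exact (IsFractionRing.injective (PowerSeries k) L).comp cs_inj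
  set τ : F →+* L := IsFractionRing.lift hinj with hτ
  have hτ1 : τ.comp (algebraMap k[X] F) = (algebraMap (PowerSeries k) L).comp cs := by
    refine RingHom.ext fun x => ?_
    rw [RingHom.comp_apply, hτ, IsFractionRing.lift_algebraMap]
  have hev : ∀ g : k[X][X], eval₂ τ (algebraMap (PowerSeries k) L φ) (g.map (algebraMap k[X] F)) =
      algebraMap (PowerSeries k) L (Psi φ g) := by
    intro g
    rw [eval₂_map, hτ1, Psi, coe_eval₂RingHom, hom_eval₂]
  have h4 := congrArg (eval₂ τ (algebraMap (PowerSeries k) L φ)) hab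
  rw [eval₂_add, eval₂_mul, eval₂_mul, hev, hev, hP, hf, map_zero, mul_zero, mul_zero, add_zero,
    eval₂_one] at h4
  exact zero_ne_one h4

theorem factor {ι : Type} (φ : PowerSeries k) (G : ι → k[X][X]) (m : ℕ) (hm : 1 ≤ m)
    (hG : ∃ j, G j ≠ 0) (hd : ∀ j, (X - C φ) ^ m ∣ (G j).map cs) :
    ∃ (h : k[X][X]) (κ : ι → k[X][X]), (∀ j, G j = h ^ m * κ j) ∧ Psi φ h = 0 := by
  classical
  have hz : ∀ j, Psi φ (G j) = 0 := by
    intro j
    rw [Psi_eq]
    obtain ⟨q, hq⟩ := hd j
    rw [hq, eval_mul, eval_pow, eval_sub, eval_X, eval_C, sub_self, zero_pow (by omega), zero_mul]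
  obtain ⟨j0, hj0⟩ := hG
  obtain ⟨h, hP, hprime, hdeg, hker⟩ := kernel φ (G j0) hj0 (hz j0)
  have hmap0 : ∀ f : k[X][X], f ≠ 0 → f.map cs ≠ 0 := fun f hf =>
    (Polynomial.map_ne_zero_iff cs_inj).2 hf
  have hh' : Psi φ (derivative h) ≠ 0 := by
    intro h1
    have h2 := hker _ h1
    have h3 : derivative h ≠ 0 := by
      intro h4
      have := natDegree_eq_zero_of_derivative_eq_zero h4
      omega
    have h4 := natDegree_le_of_dvd h2 h3
    have h5 := natDegree_derivative_lt hdeg.ne'
    omega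
  have hrm : (h.map cs).rootMultiplicity φ = 1 := by
    have h0 := hmap0 h hprime.ne_zero
    have h1 : 0 < (h.map cs).rootMultiplicity φ := (rootMultiplicity_pos h0).2 (by
      rw [IsRoot, ← Psi_eq, hP])
    have h2 : ¬ 1 < (h.map cs).rootMultiplicity φ := by
      rw [one_lt_rootMultiplicity_iff_isRoot h0]
      rintro ⟨_, h3⟩
      rw [derivative_map, IsRoot, ← Psi_eq] at h3
      exact hh' h3
    omega
  have hκ : ∀ j, ∃ κ : k[X][X], G j = h ^ m * κ := by
    intro j
    by_cases hj : G j = 0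
    · exact ⟨0, by rw [hj, mul_zero]⟩
    obtain ⟨e, κ, hnd, hκ⟩ := WfDvdMonoid.max_power_factor hj hprime.irreducible
    have hκ0 : κ ≠ 0 := by
      rintro rfl
      exact hnd (dvd_zero _)
    have h1 : ((G j).map cs).rootMultiplicity φ = e := by
      rw [hκ, Polynomial.map_mul, Polynomial.map_pow, rootMultiplicity_mul
        (mul_ne_zero (pow_ne_zero _ (hmap0 h hprime.ne_zero)) (hmap0 κ hκ0))]
      have h2 : (κ.map cs).rootMultiplicity φ = 0 := by
        refine rootMultiplicity_eq_zero ?_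
        rw [IsRoot, ← Psi_eq]
        exact fun h3 => hnd (hker _ h3)
      have h3 : ((h.map cs) ^ e).rootMultiplicity φ = e := by
        rw [← count_roots, roots_pow, Multiset.count_nsmul, count_roots, hrm, mul_one]
      rw [h2, h3, add_zero]
    have h2 : m ≤ e := by
      rw [← h1]
      exact (le_rootMultiplicity_iff (hmap0 _ hj)).2 (hd j)
    refine ⟨h ^ (e - m) * κ, ?_⟩
    rw [hκ, ← mul_assoc, ← pow_add, Nat.add_sub_cancel' h2]
  choose κ hκ using hκ
  exact ⟨h, κ, hκ, hP⟩

end Pool.Agent.Y230.RE
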